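import Pool.Agent.V7H59.AQ.Spec

/-! Piece R1 of `Pool.Agent.V7H59.AQ`: existence of the roots. -/

set_option autoImplicit false

namespace Pool.Agent.V7H32.AQ

open Pool.Agent.V7H59.AQ

private lemma cont : Continuous (fun t : ℝ => t ^ 4 - t ^ 3 - 2 * t ^ 2 + 2 * t - 1) := by
  fun_prop

theorem t_R1 : S_R1 := by
  have h1 : ∃ lam ∈ Set.Icc (1.690284 : ℝ) 1.690285,
      lam ^ 4 - lam ^ 3 - 2 * lam ^ 2 + 2 * lam - 1 = 0 := by
    have := intermediate_value_Icc (a := (1.690284 : ℝ)) (b := 1.690285) (by norm_num)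
      (cont.continuousOn)
    have h0 : (0 : ℝ) ∈ Set.Icc ((1.690284 : ℝ) ^ 4 - (1.690284 : ℝ) ^ 3 - 2 * (1.690284 : ℝ) ^ 2 +
        2 * (1.690284 : ℝ) - 1) ((1.690285 : ℝ) ^ 4 - (1.690285 : ℝ) ^ 3 - 2 * (1.690285 : ℝ) ^ 2 +
        2 * (1.690285 : ℝ) - 1) := by
      constructor <;> norm_num
    obtain ⟨x, hx, hx0⟩ := this h0
    exact ⟨x, hx, hx0⟩
  have h2 : ∃ mu ∈ Set.Icc (-1.505069 : ℝ) (-1.505068),
      mu ^ 4 - mu ^ 3 - 2 * mu ^ 2 + 2 * mu - 1 = 0 := by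
    have := intermediate_value_Icc' (a := (-1.505069 : ℝ)) (b := -1.505068) (by norm_num)
      (cont.continuousOn)
    have h0 : (0 : ℝ) ∈ Set.Icc ((-1.505068 : ℝ) ^ 4 - (-1.505068 : ℝ) ^ 3 -
        2 * (-1.505068 : ℝ) ^ 2 + 2 * (-1.505068 : ℝ) - 1) ((-1.505069 : ℝ) ^ 4 -
        (-1.505069 : ℝ) ^ 3 - 2 * (-1.505069 : ℝ) ^ 2 + 2 * (-1.505069 : ℝ) - 1) := by
      constructor <;> norm_num
    obtain ⟨x, hx, hx0⟩ := this h0
    exact ⟨x, hx, hx0⟩
  obtain ⟨lam, hlam, hl⟩ := h1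
  obtain ⟨mu, hmu, hm⟩ := h2
  obtain ⟨l1, l2⟩ := hlam
  obtain ⟨m1, m2⟩ := hmu
  have hl0 : lam ≠ 0 := by
    intro h
    rw [h] at l1
    norm_num at l1
  have hm0 : mu ≠ 0 := by
    intro h
    rw [h] at m2
    norm_num at m2
  -- the other factor
  set s : ℝ := 1 - lam - mu with hs
  set q : ℝ := -1 / (lam * mu) with hq
  have hqe : q * (lam * mu) = -1 := by
    rw [hq]
    field_simp
  have hne : lam - mu ≠ 0 := by
    have : 0 < lam - mu := by linarith
    exact this.ne'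
  -- remainder of the division
  have e1 : (q + lam * mu + s * (lam + mu) + 2) * lam + (-q * (lam + mu) - s * (lam * mu) - 2) = 0 := by
    have : ((q + lam * mu + s * (lam + mu) + 2) * lam + (-q * (lam + mu) - s * (lam * mu) - 2)) *
        lam = 0 := by
      rw [hs]
      linear_combination (-1 : ℝ) * hl - hqe
    rcases mul_eq_zero.1 this with h | h
    · exact h
    · exact absurd h hl0
  have e2 : (q + lam * mu + s * (lam + mu) + 2) * mu + (-q * (lam + mu) - s * (lam * mu) - 2) = 0 := by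
    have : ((q + lam * mu + s * (lam + mu) + 2) * mu + (-q * (lam + mu) - s * (lam * mu) - 2)) *
        mu = 0 := by
      rw [hs]
      linear_combination (-1 : ℝ) * hm - hqe
    rcases mul_eq_zero.1 this with h | h
    · exact h
    · exact absurd h hm0
  have r2 : q + lam * mu + s * (lam + mu) + 2 = 0 := by
    have : (q + lam * mu + s * (lam + mu) + 2) * (lam - mu) = 0 := by linear_combination e1 - e2
    rcases mul_eq_zero.1 this with h | h
    · exact h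
    · exact absurd h hne
  have r1 : -q * (lam + mu) - s * (lam * mu) - 2 = 0 := by
    rw [r2] at e1
    linarith
  -- the complex roots
  set a : ℝ := s / 2 with ha
  have hs2 : s = 2 * a := by rw [ha]; ring
  have hsum : lam + mu = 1 - 2 * a := by
    rw [← hs2, hs]
    ring
  have a1 : (0.407391 : ℝ) ≤ a := by
    rw [ha, hs]
    linarith
  have a2 : a ≤ (0.407393 : ℝ) := by
    rw [ha, hs]
    linarith
  have hE : lam * mu = -q - 2 - 2 * a + 4 * a ^ 2 := by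
    rw [hsum, hs2] at r2
    linarith
  have K : 8 * a ^ 3 - 4 * a * q - 4 * a ^ 2 + q - 4 * a + 2 = 0 := by
    rw [hsum, hs2, hE] at r1
    linarith
  have Q : q ^ 2 = 1 - 2 * q - 2 * a * q + 4 * a ^ 2 * q := by
    rw [hE] at hqe
    linarith
  have hP1 : (2.5439920 : ℝ) ≤ lam * (-mu) := by
    have h1 : (1.690284 : ℝ) * 1.505068 ≤ lam * (-mu) :=
      mul_le_mul l1 (by linarith) (by norm_num) (by linarith)
    refine le_trans ?_ h1
    norm_num
  have hP2 : lam * (-mu) ≤ (2.5439960 : ℝ) := by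
    have h1 : lam * (-mu) ≤ (1.690285 : ℝ) * 1.505069 :=
      mul_le_mul l2 (by linarith) (by linarith) (by norm_num)
    refine le_trans h1 ?_
    norm_num
  have hqP : q * (lam * (-mu)) = 1 := by linarith
  have q0 : 0 < q := by
    by_contra h
    have h1 : q * (lam * (-mu)) ≤ 0 := mul_nonpos_of_nonpos_of_nonneg (not_lt.1 h) (by linarith)
    linarith
  have q1 : (0.393082 : ℝ) ≤ q := by
    by_contra h
    have h1 : q * (lam * (-mu)) ≤ 0.393082 * 2.5439960 :=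
      mul_le_mul (not_le.1 h).le hP2 (by linarith) (by norm_num)
    norm_num at h1
    linarith
  have q2 : q ≤ (0.393084 : ℝ) := by
    by_contra h
    have h1 : (0.393084 : ℝ) * 2.5439920 ≤ q * (lam * (-mu)) :=
      mul_le_mul (not_le.1 h).le hP1 (by norm_num) q0.le
    norm_num at h1
    linarith
  have b1 : (0.47656 : ℝ) ^ 2 < q - a ^ 2 := by
    have : a ^ 2 ≤ (0.407393 : ℝ) ^ 2 := pow_le_pow_left₀ (by linarith) a2 2
    norm_num at this ⊢
    linarith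
  have b2 : q - a ^ 2 < (0.47657 : ℝ) ^ 2 := by
    have : (0.407391 : ℝ) ^ 2 ≤ a ^ 2 := pow_le_pow_left₀ (by norm_num) a1 2
    norm_num at this ⊢
    linarith
  have hpos : 0 ≤ q - a ^ 2 := le_trans (by norm_num) b1.le
  have hb : Real.sqrt (q - a ^ 2) ^ 2 = q - a ^ 2 := Real.sq_sqrt hpos
  have c1 : (0.47656 : ℝ) < Real.sqrt (q - a ^ 2) := Real.lt_sqrt_of_sq_lt b1
  have c2 : Real.sqrt (q - a ^ 2) < (0.47657 : ℝ) := (Real.sqrt_lt' (by norm_num)).2 b2
  generalize Real.sqrt (q - a ^ 2) = b at hb c1 c2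
  refine ⟨lam, mu, a, b, ⟨⟨by linarith, by linarith⟩, ⟨by linarith, by linarith⟩,
    ⟨by linarith, by linarith⟩, ⟨c1, c2⟩⟩, hl, hm, ?_, ?_⟩
  · have h4 : b ^ 4 = (q - a ^ 2) ^ 2 := by rw [← hb]; ring
    have h5 : a ^ 4 - 6 * a ^ 2 * b ^ 2 + b ^ 4 - (a ^ 3 - 3 * a * b ^ 2) - 2 * (a ^ 2 - b ^ 2) +
        2 * a - 1 = a ^ 4 - 6 * a ^ 2 * (q - a ^ 2) + (q - a ^ 2) ^ 2 -
        (a ^ 3 - 3 * a * (q - a ^ 2)) - 2 * (a ^ 2 - (q - a ^ 2)) + 2 * a - 1 := by
      rw [h4, hb]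
    rw [h5]
    linear_combination Q + a * K
  · have h5 : 4 * a ^ 3 * b - 4 * a * b ^ 3 - (3 * a ^ 2 * b - b ^ 3) - 4 * a * b + 2 * b =
        b * (4 * a ^ 3 - 4 * a * b ^ 2 - 3 * a ^ 2 + b ^ 2 - 4 * a + 2) := by ring
    rw [h5, hb]
    linear_combination b * K

end Pool.Agent.V7H32.AQ
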