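import Pool.Agent.V7H59.AQ.Spec

/-! Piece R2 of `Pool.Agent.V7H59.AQ`: linear arithmetic. -/

set_option autoImplicit false

namespace Pool.Agent.V7H32.AQ

open Pool.Agent.V7H59.AQ

private lemma two (x y x1 x2 y1 y2 : ℝ) (hx1 : 0 ≤ x1) (hy1 : 0 ≤ y1) (h1 : x1 ≤ x) (h2 : x ≤ x2)
    (h3 : y1 ≤ y) (h4 : y ≤ y2) : x1 * y1 ≤ x * y ∧ x * y ≤ x2 * y2 :=
  ⟨mul_le_mul h1 h3 hy1 (hx1.trans h1),
    mul_le_mul h2 h4 (hy1.trans h3) ((hx1.trans h1).trans h2)⟩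

private lemma mulerr {k k0 d : ℝ} (v : ℝ) (h : |k - k0| ≤ d) :
    k * v ≤ k0 * v + d * |v| ∧ k0 * v - d * |v| ≤ k * v := by
  have h1 : |(k - k0) * v| ≤ d * |v| := by
    rw [abs_mul]
    exact mul_le_mul_of_nonneg_right h (abs_nonneg v)
  have h2 := abs_le.1 h1
  constructor <;> linarith only [h2.1, h2.2]

/-- the linear programme -/
private lemma lin1 (v0 v1 v2 v3 w0 w1 w2 w3 R I : ℝ)
    (hw0 : |v0| = w0) (hw1 : |v1| = w1) (hw2 : |v2| = w2) (hw3 : |v3| = w3)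
    (hR : R = v0 - 0.592605 * v1 - 0.468538 * v2 + 0.443795 * v3)
    (hI : I = 0.476565 * v1 - 0.088268 * v2 - 0.735814 * v3)
    (R1 : R ≤ 5.37 + 0.0001 * (w0 + w1 + w2 + w3)) (R2 : -5.37 - 0.0001 * (w0 + w1 + w2 + w3) ≤ R)
    (I1 : I ≤ 5.37 + 0.0001 * (w0 + w1 + w2 + w3)) (I2 : -5.37 - 0.0001 * (w0 + w1 + w2 + w3) ≤ I)
    (l1 : 35 * v0 + 17 * v1 + 45 * v2 + 35 * v3 ≤ 88)
    (l2 : -88 ≤ 35 * v0 + 17 * v1 + 45 * v2 + 35 * v3)
    (c1 : 13 * v0 + 16 * v1 + 3 * v2 + 27 * v3 ≤ 54)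
    (c2 : -54 ≤ 13 * v0 + 16 * v1 + 3 * v2 + 27 * v3) : w0 + w1 + w2 + w3 ≤ 36 := by
  have p0 : 0 ≤ w0 := hw0 ▸ abs_nonneg _
  have p1 : 0 ≤ w1 := hw1 ▸ abs_nonneg _
  have p2 : 0 ≤ w2 := hw2 ▸ abs_nonneg _
  have p3 : 0 ≤ w3 := hw3 ▸ abs_nonneg _
  have a0 : w0 ≤ 9.2 + 0.01 * (w0 + w1 + w2 + w3) := by
    rw [← hw0, abs_le]
    constructor <;> rw [hw0] <;> linarith only [hR, hI, R1, R2, I1, I2, l1, l2, c1, c2, p0, p1, p2, p3]
  have a1 : w1 ≤ 8.2 + 0.01 * (w0 + w1 + w2 + w3) := by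
    rw [← hw1, abs_le]
    constructor <;> rw [hw1] <;> linarith only [hR, hI, R1, R2, I1, I2, l1, l2, c1, c2, p0, p1, p2, p3]
  have a2 : w2 ≤ 6.7 + 0.01 * (w0 + w1 + w2 + w3) := by
    rw [← hw2, abs_le]
    constructor <;> rw [hw2] <;> linarith only [hR, hI, R1, R2, I1, I2, l1, l2, c1, c2, p0, p1, p2, p3]
  have a3 : w3 ≤ 7.1 + 0.01 * (w0 + w1 + w2 + w3) := by
    rw [← hw3, abs_le]
    constructor <;> rw [hw3] <;> linarith only [hR, hI, R1, R2, I1, I2, l1, l2, c1, c2, p0, p1, p2, p3]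
  linarith only [a0, a1, a2, a3]

/-- the second linear programme -/
private lemma lin2 (v0 v1 v2 v3 S R I : ℝ) (hS : S ≤ 36)
    (hR : R = v0 - 0.592605 * v1 - 0.468538 * v2 + 0.443795 * v3)
    (hI : I = 0.476565 * v1 - 0.088268 * v2 - 0.735814 * v3)
    (R1 : R ≤ 5.37 + 0.0001 * S) (R2 : -5.37 - 0.0001 * S ≤ R)
    (I1 : I ≤ 5.37 + 0.0001 * S) (I2 : -5.37 - 0.0001 * S ≤ I)
    (l1 : 35 * v0 + 17 * v1 + 45 * v2 + 35 * v3 ≤ 88)
    (l2 : -88 ≤ 35 * v0 + 17 * v1 + 45 * v2 + 35 * v3)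
    (c1 : 13 * v0 + 16 * v1 + 3 * v2 + 27 * v3 ≤ 54)
    (c2 : -54 ≤ 13 * v0 + 16 * v1 + 3 * v2 + 27 * v3)
    (X1 : 2419 * (35 * v0 + 17 * v1 + 45 * v2 + 35 * v3) +
      1623 * (13 * v0 + 16 * v1 + 3 * v2 + 27 * v3) ≤ 248888)
    (X2 : -248888 ≤ 2419 * (35 * v0 + 17 * v1 + 45 * v2 + 35 * v3) +
      1623 * (13 * v0 + 16 * v1 + 3 * v2 + 27 * v3))
    (Y1 : 10773 * (35 * v0 + 17 * v1 + 45 * v2 + 35 * v3) -
      25837 * (13 * v0 + 16 * v1 + 3 * v2 + 27 * v3) ≤ 1403962)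
    (Y2 : -1403962 ≤ 10773 * (35 * v0 + 17 * v1 + 45 * v2 + 35 * v3) -
      25837 * (13 * v0 + 16 * v1 + 3 * v2 + 27 * v3)) :
    ((-3.2 ≤ v0 + 0.690285 * v1 + 1.166777 * v2 + 1.281901 * v3 ∧
      v0 + 0.690285 * v1 + 1.166777 * v2 + 1.281901 * v3 ≤ 3.2) ∧
    (-19 ≤ v0 - 2.505068 * v1 + 3.770299 * v2 - 3.169490 * v3 ∧
      v0 - 2.505068 * v1 + 3.770299 * v2 - 3.169490 * v3 ≤ 19)) := by
  refine ⟨⟨?_, ?_⟩, ?_, ?_⟩
  · linarith only [hR, hI, R1, R2, I1, I2, l1, l2, c1, c2, X1, X2, hS]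
  · linarith only [hR, hI, R1, R2, I1, I2, l1, l2, c1, c2, X1, X2, hS]
  · linarith only [hR, hI, R1, R2, I1, I2, l1, l2, c1, c2, Y1, Y2, hS]
  · linarith only [hR, hI, R1, R2, I1, I2, l1, l2, c1, c2, Y1, Y2, hS]

theorem t_R2 : S_R2 := by
  rintro lam mu a b ⟨⟨l1, l2⟩, ⟨m1, m2⟩, ⟨a1, a2⟩, ⟨b1, b2⟩⟩ v0 v1 v2 v3 l c hl hc hR hI hl88 hc54
    hX hY
  have aa := two a a _ _ _ _ (by norm_num) (by norm_num) a1.le a2.le a1.le a2.le
  have bb := two b b _ _ _ _ (by norm_num) (by norm_num) b1.le b2.le b1.le b2.le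
  have ab := two a b _ _ _ _ (by norm_num) (by norm_num) a1.le a2.le b1.le b2.le
  have aaa := two (a * a) a _ _ _ _ (by norm_num) (by norm_num) aa.1 aa.2 a1.le a2.le
  have aab := two (a * a) b _ _ _ _ (by norm_num) (by norm_num) aa.1 aa.2 b1.le b2.le
  have abb := two (a * b) b _ _ _ _ (by norm_num) (by norm_num) ab.1 ab.2 b1.le b2.le
  have bbb := two (b * b) b _ _ _ _ (by norm_num) (by norm_num) bb.1 bb.2 b1.le b2.le
  have ll := two lam lam _ _ _ _ (by norm_num) (by norm_num) l1.le l2.le l1.le l2.le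
  have lll := two (lam * lam) lam _ _ _ _ (by norm_num) (by norm_num) ll.1 ll.2 l1.le l2.le
  have n1 : (1.50506 : ℝ) ≤ -mu := by linarith
  have n2 : -mu ≤ (1.50507 : ℝ) := by linarith
  have mm := two (-mu) (-mu) _ _ _ _ (by norm_num) (by norm_num) n1 n2 n1 n2
  have mmm := two ((-mu) * (-mu)) (-mu) _ _ _ _ (by norm_num) (by norm_num) mm.1 mm.2 n1 n2
  norm_num at aa bb ab aaa aab abb bbb ll lll mm mmm
  have k1 : |(a - 1) - (-0.592605)| ≤ 0.0001 := by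
    rw [abs_le]; constructor <;> linarith
  have k2 : |(a ^ 2 - b ^ 2 - a) - (-0.468538)| ≤ 0.0001 := by
    rw [abs_le]; constructor <;> linarith only [aa.1, aa.2, bb.1, bb.2, a1, a2]
  have k3 : |((a - 1) * (a ^ 2 - b ^ 2 - 1) - 2 * a * b ^ 2) - 0.443795| ≤ 0.0001 := by
    have e : (a - 1) * (a ^ 2 - b ^ 2 - 1) - 2 * a * b ^ 2 =
        a * a * a - 3 * (a * b * b) - a - a * a + b * b + 1 := by ring
    rw [e, abs_le]; constructor <;> linarith [aa.1, aa.2, bb.1, bb.2, aaa.1, aaa.2, abb.1, abb.2]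
  have k4 : |b - 0.476565| ≤ 0.0001 := by
    rw [abs_le]; constructor <;> linarith
  have k5 : |(2 * a * b - b) - (-0.088268)| ≤ 0.0001 := by
    have e : 2 * a * b - b = 2 * (a * b) - b := by ring
    rw [e, abs_le]; constructor <;> linarith [ab.1, ab.2]
  have k6 : |(b * (a ^ 2 - b ^ 2 - 1) + 2 * a * b * (a - 1)) - (-0.735814)| ≤ 0.0001 := by
    have e : b * (a ^ 2 - b ^ 2 - 1) + 2 * a * b * (a - 1) =
        3 * (a * a * b) - b * b * b - b - 2 * (a * b) := by ring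
    rw [e, abs_le]; constructor <;> linarith [ab.1, ab.2, aab.1, aab.2, bbb.1, bbb.2]
  have k7 : |(lam - 1) - 0.690285| ≤ 0.0001 := by
    rw [abs_le]; constructor <;> linarith
  have k8 : |lam * (lam - 1) - 1.166777| ≤ 0.0001 := by
    have e : lam * (lam - 1) = lam * lam - lam := by ring
    rw [e, abs_le]; constructor <;> linarith [ll.1, ll.2]
  have k9 : |(lam - 1) * (lam ^ 2 - 1) - 1.281901| ≤ 0.0001 := by
    have e : (lam - 1) * (lam ^ 2 - 1) = lam * lam * lam - lam * lam - lam + 1 := by ring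
    rw [e, abs_le]; constructor <;> linarith [ll.1, ll.2, lll.1, lll.2]
  have k10 : |(mu - 1) - (-2.505068)| ≤ 0.0001 := by
    rw [abs_le]; constructor <;> linarith
  have k11 : |mu * (mu - 1) - 3.770299| ≤ 0.0001 := by
    have e : mu * (mu - 1) = (-mu) * (-mu) + (-mu) := by ring
    rw [e, abs_le]; constructor <;> linarith only [mm.1, mm.2, n1, n2]
  have k12 : |(mu - 1) * (mu ^ 2 - 1) - (-3.169490)| ≤ 0.0001 := by
    have e : (mu - 1) * (mu ^ 2 - 1) = -((-mu) * (-mu) * (-mu)) - (-mu) * (-mu) + (-mu) + 1 := by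
      ring
    rw [e, abs_le]; constructor <;> linarith only [mm.1, mm.2, mmm.1, mmm.2, n1, n2]
  have f1 := mulerr v1 k1
  have f2 := mulerr v2 k2
  have f3 := mulerr v3 k3
  have f4 := mulerr v1 k4
  have f5 := mulerr v2 k5
  have f6 := mulerr v3 k6
  have f7 := mulerr v1 k7
  have f8 := mulerr v2 k8
  have f9 := mulerr v3 k9
  have f10 := mulerr v1 k10
  have f11 := mulerr v2 k11
  have f12 := mulerr v3 k12
  have q0 := abs_nonneg v0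
  have q1 := abs_nonneg v1
  have q2 := abs_nonneg v2
  have q3 := abs_nonneg v3
  unfold reZ at hR
  unfold imZ at hI
  rw [zero_mul, zero_add] at hI
  rw [abs_le] at hR hI hl88 hc54 hX hY
  obtain ⟨hR1, hR2⟩ := hR
  obtain ⟨hI1, hI2⟩ := hI
  obtain ⟨hl1, hl2⟩ := hl88
  obtain ⟨hc1, hc2⟩ := hc54
  obtain ⟨hX1, hX2⟩ := hX
  obtain ⟨hY1, hY2⟩ := hY
  rw [hl, hc] at hX1 hX2 hY1 hY2
  rw [hl] at hl1 hl2
  rw [hc] at hc1 hc2
  have g1 : v0 - 0.592605 * v1 - 0.468538 * v2 + 0.443795 * v3 ≤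
      5.37 + 0.0001 * (|v0| + |v1| + |v2| + |v3|) := by
    linarith only [f1.2, f2.2, f3.2, hR2, q0]
  have g2 : -5.37 - 0.0001 * (|v0| + |v1| + |v2| + |v3|) ≤
      v0 - 0.592605 * v1 - 0.468538 * v2 + 0.443795 * v3 := by
    linarith only [f1.1, f2.1, f3.1, hR1, q0]
  have g3 : 0.476565 * v1 - 0.088268 * v2 - 0.735814 * v3 ≤
      5.37 + 0.0001 * (|v0| + |v1| + |v2| + |v3|) := by
    linarith only [f4.2, f5.2, f6.2, hI2, q0]
  have g4 : -5.37 - 0.0001 * (|v0| + |v1| + |v2| + |v3|) ≤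
      0.476565 * v1 - 0.088268 * v2 - 0.735814 * v3 := by
    linarith only [f4.1, f5.1, f6.1, hI1, q0]
  have hS := lin1 v0 v1 v2 v3 _ _ _ _ _ _ rfl rfl rfl rfl rfl rfl g1 g2 g3 g4 hl2 hl1 hc2 hc1
  have h2 := lin2 v0 v1 v2 v3 _ _ _ hS rfl rfl g1 g2 g3 g4 hl2 hl1 hc2 hc1 hX2 hX1 hY2 hY1
  unfold exX
  constructor
  · rw [abs_lt]
    constructor
    · linarith only [h2.1.1, f7.2, f8.2, f9.2, hS, q0, q1, q2, q3]
    · linarith only [h2.1.2, f7.1, f8.1, f9.1, hS, q0, q1, q2, q3]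
  · rw [abs_lt]
    constructor
    · linarith only [h2.2.1, f10.2, f11.2, f12.2, hS, q0, q1, q2, q3]
    · linarith only [h2.2.2, f10.1, f11.1, f12.1, hS, q0, q1, q2, q3]

end Pool.Agent.V7H32.AQ
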